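import Pool.Agent.Lib.MP_1f047c_nt.CarLeoD

namespace Pool.Agent.Results.MP_1f047c_nt.CarlitzLeopoldt

open Polynomial TensorProduct Pool.Agent.Lib.MP_1f047c_nt

theorem result (F L K k M : Type) [Field F] [Fintype F]
    [Field L] [Algebra (RatFunc F) L] [Algebra F[X] L] [IsScalarTower F[X] (RatFunc F) L]
    [FiniteDimensional (RatFunc F) L] [Algebra.IsSeparable (RatFunc F) L]
    [NormedField K] [IsUltrametricDist K] [CompleteSpace K] [IsAlgClosed K] [Algebra (RatFunc F) K]
    (v : F[X]) (hv : v ≠ 0) (hvK : ‖algebraMap (RatFunc F) K (algebraMap F[X] (RatFunc F) v)‖ < 1)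
    [NormedField k] [CompleteSpace k] [Algebra (RatFunc F) k]
    (hk : DenseRange (algebraMap (RatFunc F) k))
    [NormedField M] [IsUltrametricDist M] [NormedAlgebra k M] [FiniteDimensional k M] [IsGalois k M]
    [Algebra (RatFunc F) M] [IsScalarTower (RatFunc F) k M]
    (hθ : 1 < ‖algebraMap (RatFunc F) M RatFunc.X‖)
    (hM : ∀ x : L, ((minpoly (RatFunc F) x).map (algebraMap (RatFunc F) M)).Splits)
    (exp : M → M) (hexp : ∀ y, HasSum (fun j : ℕ => y ^ Fintype.card F ^ j /
      ∏ s ∈ Finset.range j, (algebraMap (RatFunc F) M RatFunc.X ^ Fintype.card F ^ j -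
        algebraMap (RatFunc F) M RatFunc.X ^ Fintype.card F ^ s)) (exp y))
    (hG : (∀ y, exp y = 0 → y = 0) ∨ ∃ N : Subgroup (M ≃ₐ[k] M), ∃ _ : N.Normal,
      (Nat.card N).Coprime (Fintype.card F) ∧ IsCyclic ((M ≃ₐ[k] M) ⧸ N))
    (r : ℕ) (u : Fin r → L) (hint : ∀ i, IsIntegral F[X] (u i))
    (hunit : ∀ i, ∃ x : L ⊗[RatFunc F] k, ∀ τ : L →ₐ[RatFunc F] M,
      exp (Algebra.TensorProduct.productMap τ (IsScalarTower.toAlgHom (RatFunc F) k M) x) = τ (u i))
    (hind : ∀ a : Fin r → F[X], ∑ i, (a i).sum (fun n c => algebraMap F[X] L (C c) *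
      (fun y => algebraMap F[X] L X * y + y ^ Fintype.card F)^[n] (u i)) = 0 → a = 0)
    (hu : ∀ i (σ : L →ₐ[RatFunc F] K), ‖σ (u i)‖ < 1)
    (lam : Fin r → (L →ₐ[RatFunc F] K) → K)
    (hlam : ∀ i σ, HasSum (fun j : ℕ => σ (u i) ^ Fintype.card F ^ j /
      ∏ s ∈ Finset.range j, (algebraMap (RatFunc F) K RatFunc.X -
        algebraMap (RatFunc F) K RatFunc.X ^ Fintype.card F ^ (s + 1))) (lam i σ)) :
    LinearIndependent K lam := by
  let _ : Algebra F L := ((algebraMap (RatFunc F) L).comp (algebraMap F _)).toAlgebra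
  let _ : Algebra F K := ((algebraMap (RatFunc F) K).comp (algebraMap F _)).toAlgebra
  let _ : Algebra F M := ((algebraMap (RatFunc F) M).comp (algebraMap F _)).toAlgebra
  have : IsScalarTower F (RatFunc F) L := .of_algebraMap_eq' rfl
  have : IsScalarTower F (RatFunc F) K := .of_algebraMap_eq' rfl
  have : IsScalarTower F (RatFunc F) M := .of_algebraMap_eq' rfl
  choose x hx using hunit
  refine Car.leopoldt (k := k) hv (by rwa [Car.aeval_X_eq]) hk hθ hM
    (hG.imp (fun h y hy => h y ((hexp y).unique hy)) ?_) hint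
    (x := fun i τ => Algebra.TensorProduct.productMap τ (IsScalarTower.toAlgHom _ k M) (x i))
    (fun i τ => hx i τ ▸ hexp _) ?_ ?_ hu hlam
  · rintro ⟨N, hN, h1, h2⟩
    refine ⟨N, hN, fun h => ?_, h2⟩
    have h3 := h1.cast (R := k)
    rw [h, ← map_natCast ((algebraMap (RatFunc F) k).comp (algebraMap F _)),
      FiniteField.cast_card_eq_zero, map_zero] at h3
    exact not_isCoprime_zero_zero h3
  · refine fun γ τ => ⟨(γ.symm.restrictScalars (RatFunc F)).toAlgHom.comp τ, fun i => ?_⟩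
    induction x i using TensorProduct.induction_on with
    | zero => simp
    | tmul a b => simp
    | add a b ha hb => simp only [map_add, ha, hb]
  · refine fun a ha => hind a ?_
    have h1 : ∀ b : F[X], algebraMap F[X] L b = aeval (algebraMap (RatFunc F) L RatFunc.X) b :=
      fun b => by rw [Car.aeval_X_eq, ← IsScalarTower.algebraMap_apply]
    simpa only [Car.act_eq_sum, h1, aeval_X, aeval_C] using ha

end Pool.Agent.Results.MP_1f047c_nt.CarlitzLeopoldt
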