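import Pool.Agent.Lib.MP_1f047c_nt.DrCarlitz

namespace Pool.Agent.Results.MP_1f047c_nt.CarlitzLogs

open IntermediateField

theorem result (F K : Type) [Field F] [Fintype F] [NormedField K] [IsUltrametricDist K]
    [CompleteSpace K] [IsAlgClosed K] [Algebra F K] (θ : K) (hθ : Transcendental F θ)
    (v : Polynomial F) (hv : v ≠ 0) (hvθ : ‖Polynomial.aeval θ v‖ < 1) (n : ℕ) (α lam : Fin n → K)
    (halg : ∀ i, IsAlgebraic F⟮θ⟯ (α i)) (hα : ∀ i, ‖α i‖ < 1)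
    (hlam : ∀ i, HasSum (fun j : ℕ => α i ^ Fintype.card F ^ j /
      ∏ s ∈ Finset.range j, (θ - θ ^ Fintype.card F ^ (s + 1))) (lam i))
    (hli : LinearIndependent F⟮θ⟯ lam) : AlgebraicIndependent F⟮θ⟯ lam :=
  Pool.Agent.Lib.MP_1f047c_nt.Dr.carlitz_log' hθ hv hvθ halg hα hlam hli

end Pool.Agent.Results.MP_1f047c_nt.CarlitzLogs
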