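import Pool.Agent.Lib.MP_1f047c_nt.ExMain

namespace Pool.Agent.Results.MP_1f047c_nt.ExceptionalPadic

open Pool.Agent.Lib.MP_1f047c_nt Filter

theorem result (p : ℕ) [Fact p.Prime] (N D d : ℕ) (ε : ℝ) (hε : 0 < ε) : ∃ H₀ : ℕ, ∀ H : ℕ, H₀ ≤ H →
    ∀ L : Set ℂ_[p], (∀ z ∈ L, ‖z‖ ≤ 1 / 16 ∧ ∃ (K : Type) (_ : Field K) (_ : NumberField K)
      (φ : K →+* ℂ_[p]) (α : K), Module.finrank ℚ K ≤ d ∧ NormedSpace.exp z = φ α ∧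
        Height.mulHeight₁ α ≤ H) →
    ∃ 𝒲 : Finset (Finset ℂ_[p]), (𝒲.card : ℝ) ≤ (H : ℝ) ^ ε ∧
      (∀ W ∈ 𝒲, W.card ≤ N * (N + 1) ∧ (W : Set ℂ_[p]) ⊆ L) ∧
      ∀ lam : Fin N → ℂ_[p], (∀ k, lam k ∈ L) → ∃ W ∈ 𝒲,
        ∀ (K : Type) [Field K] [NumberField K] (φ : K →+* ℂ_[p]), Module.finrank ℚ K ≤ d →
        ∀ F : MvPolynomial (Fin N) K, F.totalDegree ≤ D → MvPolynomial.eval₂ φ lam F = 0 →
        ∀ y : Fin N → ℂ_[p], (∀ m : Fin N → ℚ, ∑ k, (m k : ℂ_[p]) * lam k ∈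
          Submodule.span ℚ (W : Set ℂ_[p]) → ∑ k, (m k : ℂ_[p]) * y k = ∑ k, (m k : ℂ_[p]) * lam k) →
          MvPolynomial.eval₂ φ y F = 0 := by
  classical
  refine eventually_atTop.1 ((Ex.exc (TA.nice_padic p) Th.fam_padic N (d + D) d hε).mono
    fun H h L hL => (h L fun z hz => ?_).imp fun 𝒲 h => ⟨h.1, h.2.1, fun l hl =>
      (h.2.2 l hl).imp fun W hW => ⟨hW.1, hW.2.roy⟩⟩)
  obtain ⟨h1, K, _, _, φ, α, h2, h3, h4⟩ := hL z hz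
  exact ⟨Ex.alg_of h2 h3 h4, h1⟩

end Pool.Agent.Results.MP_1f047c_nt.ExceptionalPadic
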