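import Pool.Agent.Lib.MP_1f047c_nt.Main

namespace Pool.Agent.Results.MP_1f047c_nt.NearOneComplex

open Pool.Agent.Lib.MP_1f047c_nt

theorem result (n : ℕ) (δ : ℝ) (hδ : 0 < δ) : ∃ c : ℝ,
    ∀ (K : Type) [Field K] [NumberField K] (φ : K →+* ℂ) (α : Matrix (Fin n) (Fin n) K)
      (M : Matrix (Fin n) (Fin n) ℂ) (h : ℝ), 0 ≤ h →
      (∀ i j, Height.logHeight₁ (α i j) ≤ h) →
      (∀ i j, Complex.exp (M i j) = φ (α i j)) →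
      (∀ i j, ‖M i j‖ ≤ Real.exp (-(δ * h + c * Module.finrank ℚ K))) →
      ‖M.det‖ < Real.exp (-(c * (h + Module.finrank ℚ K))) →
      ∃ w v : Fin n → ℚ, w ≠ 0 ∧ v ≠ 0 ∧ ∑ i, ∑ j, (w i : ℂ) * M i j * (v j : ℂ) = 0 := by
  obtain ⟨c, hc⟩ := matrix n δ hδ
  refine ⟨c, fun K _ _ φ α M h h0 h1 h2 => hc c le_rfl ℂ good_complex K φ α M h h0 h1 ?_⟩
  rwa [← Complex.exp_eq_exp_ℂ]

end Pool.Agent.Results.MP_1f047c_nt.NearOneComplex
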