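import Pool.Agent.Lib.MP_1f047c_nt.PLMain

namespace Pool.Agent.Results.MP_1f047c_nt.ProductOfLogs

theorem result (δ : ℝ) (hδ : 0 < δ) : ∃ c : ℝ,
    ∀ (K : Type) [Field K] [NumberField K] (φ : K →+* ℂ) (α β : K) (lam mu : ℂ),
      Complex.exp lam = φ α → Complex.exp mu = φ β → lam ≠ 0 → mu ≠ 0 →
      ‖lam‖ ≤ Real.exp (-(δ * Height.logHeight₁ α + c * Module.finrank ℚ K)) →
      ‖mu‖ ≤ Real.exp (-(δ * Height.logHeight₁ β + c * Module.finrank ℚ K)) →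
      ∀ a b e : K, lam * mu ≠ φ a * lam + φ b * mu + φ e :=
  Pool.Agent.Lib.MP_1f047c_nt.PL.prod_ne δ hδ

end Pool.Agent.Results.MP_1f047c_nt.ProductOfLogs
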