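import Pool.Agent.Lib.MP_1f047c_nt.Main

namespace Pool.Agent.Results.MP_1f047c_nt.RelationsComplex

open Pool.Agent.Lib.MP_1f047c_nt

theorem result (N D : ℕ) (δ : ℝ) (hδ : 0 < δ) : ∃ c : ℝ,
    ∀ (K : Type) [Field K] [NumberField K] (φ : K →+* ℂ) (α : Fin N → K) (lam : Fin N → ℂ)
      (F : MvPolynomial (Fin N) K) (h : ℝ), F.totalDegree ≤ D →
      (∀ i, Height.logHeight₁ (α i) ≤ h) → (∀ β, Height.logHeight₁ (F.coeff β) ≤ h) →
      (∀ i, Complex.exp (lam i) = φ (α i)) →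
      (∀ i, ‖lam i‖ ≤ Real.exp (-(δ * h + c * Module.finrank ℚ K))) →
      ‖MvPolynomial.eval₂ φ lam F‖ < Real.exp (-(c * (h + Module.finrank ℚ K))) →
      ∀ x : Fin N → K, (∀ m : Fin N → ℚ, ∑ i, (m i : ℂ) * lam i = 0 → ∑ i, (m i : K) * x i = 0) →
        MvPolynomial.eval x F = 0 := by
  obtain ⟨c, hc⟩ := poly (Fin N) D δ hδ
  refine ⟨c, fun K _ _ φ α lam F h h0 h1 h2 h3 =>
    hc c le_rfl ℂ good_complex K φ α lam F h h0 h1 h2 ?_⟩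
  rwa [← Complex.exp_eq_exp_ℂ]

end Pool.Agent.Results.MP_1f047c_nt.RelationsComplex
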