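import Pool.Agent.Lib.MP_1f047c_nt.TIARoy
import Pool.Agent.Lib.MP_1f047c_nt.TIZero

namespace Pool.Agent.Results.MP_1f047c_nt.RelationsP

open Pool.Agent.Lib.MP_1f047c_nt

theorem result (N D : ℕ) (δ : ℝ) (hδ : 0 < δ) : ∃ c : ℝ, ∀ (p : ℕ) [Fact p.Prime]
    (K : Type) [Field K] [NumberField K] (φ : K →+* ℂ_[p]) (α : Fin N → K) (lam : Fin N → ℂ_[p]),
      (∀ k, NormedSpace.exp (lam k) = φ (α k)) →
      (∀ k, ‖lam k‖ ≤ Real.exp (-(δ * Height.logHeight₁ (α k) + c * Module.finrank ℚ K))) →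
      ∀ F : MvPolynomial (Fin N) K, F.totalDegree ≤ D → MvPolynomial.eval₂ φ lam F = 0 →
      ∀ y : Fin N → ℂ_[p],
        (∀ m : Fin N → ℚ, ∑ k, (m k : ℂ_[p]) * lam k = 0 → ∑ k, (m k : ℂ_[p]) * y k = 0) →
        MvPolynomial.eval₂ φ y F = 0 := by
  obtain ⟨c, hc⟩ := TI.polyN TI.zest N D δ hδ
  exact ⟨c, fun p _ => hc ℂ_[p] (TA.nice_padic p)⟩

end Pool.Agent.Results.MP_1f047c_nt.RelationsP
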