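import Pool.Agent.Lib.MP_1f047c_nt.TIASpan
import Pool.Agent.Lib.MP_1f047c_nt.TIZero

namespace Pool.Agent.Results.MP_1f047c_nt.SpanComplex

open Pool.Agent.Lib.MP_1f047c_nt

theorem result (n N : ℕ) (δ : ℝ) (hδ : 0 < δ) : ∃ c : ℝ,
    ∀ (K : Type) [Field K] [NumberField K] (φ : K →+* ℂ) (α : Fin N → K) (lam : Fin N → ℂ),
      (∀ k, Complex.exp (lam k) = φ (α k)) →
      (∀ k, ‖lam k‖ ≤ Real.exp (-(δ * Height.logHeight₁ (α k) + c * Module.finrank ℚ K))) →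
      ∀ M : Matrix (Fin n) (Fin n) ℂ, (∀ i j, M i j ∈ Submodule.span ℚ (Set.range lam)) →
      M.det = 0 →
      ∃ w v : Fin n → ℚ, w ≠ 0 ∧ v ≠ 0 ∧ ∑ i, ∑ j, (w i : ℂ) * M i j * (v j : ℂ) = 0 := by
  obtain ⟨c, hc⟩ := TI.spanN TI.zest n N δ hδ
  refine ⟨c, fun K _ _ φ α lam h => hc ℂ TA.nice_complex K φ α lam ?_⟩
  rwa [← Complex.exp_eq_exp_ℂ]

end Pool.Agent.Results.MP_1f047c_nt.SpanComplex
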