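import Pool.Agent.Results.MP_1f047c_nt.ExceptionalC
import Pool.Agent.Lib.MP_1f047c_nt.ThMain

/-! The thin set of primes, derived from the exceptional spaces. -/

open Finset Submodule Filter

namespace Pool.Agent.Lib.MP_1f047c_nt.Ex

open Th

lemma exists_mv {N n : ℕ} {l : Fin N → ℂ} {s : Set (Fin N)} {x : ℂ} (h : x ∈ V (l '' s) ^ n) :
    ∃ G : MvPolynomial (Fin N) ℚ, G.totalDegree ≤ n ∧
      ∀ y : Fin N → ℂ, (∀ j ∈ s, y j = l j) → MvPolynomial.aeval y G = x := by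
  have H : ∀ x ∈ V (l '' s), ∃ G : MvPolynomial (Fin N) ℚ, G.totalDegree ≤ 1 ∧
      ∀ y : Fin N → ℂ, (∀ j ∈ s, y j = l j) → MvPolynomial.aeval y G = x := fun x hx => by
    induction hx using span_induction with
    | mem x hx =>
      rcases hx with rfl | ⟨j, hj, rfl⟩
      · exact ⟨1, by simp, by simp⟩
      · exact ⟨.X j, by simp, fun y hy => by simp [hy j hj]⟩
    | zero => exact ⟨0, by simp, by simp⟩
    | add u v _ _ hu hv =>
      obtain ⟨G, h1, h2⟩ := hu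
      obtain ⟨G', h3, h4⟩ := hv
      exact ⟨G + G', (MvPolynomial.totalDegree_add _ _).trans (max_le h1 h3),
        fun y hy => by rw [map_add, h2 y hy, h4 y hy]⟩
    | smul c u _ hu =>
      obtain ⟨G, h1, h2⟩ := hu
      exact ⟨c • G, (MvPolynomial.totalDegree_smul_le _ _).trans h1,
        fun y hy => by rw [map_smul, h2 y hy]⟩
  induction h using Submodule.pow_induction_on_left' with
  | algebraMap r => exact ⟨.C r, (MvPolynomial.totalDegree_C _).le, fun y _ => MvPolynomial.aeval_C _ _⟩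
  | add u v i _ _ hu hv =>
    obtain ⟨G, h1, h2⟩ := hu
    obtain ⟨G', h3, h4⟩ := hv
    exact ⟨G + G', (MvPolynomial.totalDegree_add _ _).trans (max_le h1 h3),
      fun y hy => by rw [map_add, h2 y hy, h4 y hy]⟩
  | mem_mul u hu i v _ hv =>
    obtain ⟨G, h1, h2⟩ := H u hu
    obtain ⟨G', h3, h4⟩ := hv
    exact ⟨G * G', (MvPolynomial.totalDegree_mul _ _).trans (by omega),
      fun y hy => by rw [map_mul, h2 y hy, h4 y hy]⟩

theorem count_primes [DecidableEq ℂ] (m : ℕ) (ε : ℝ) (hε : 0 < ε) : ∀ᶠ y : ℕ in atTop,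
    ∀ X : Finset ℕ, (∀ p ∈ X, Bad (Uq ⊤) (fun b => {z : ℂ | ‖z‖ ≤ b}) m y p) →
      (X.card : ℝ) ≤ (y : ℝ) ^ ε := by
  obtain ⟨c, hc⟩ : ∃ c : ℕ, (m + 1) * (m + 1 + 1) * (m + 1) = c := ⟨_, rfl⟩
  have t1 := tendsto_natCast_atTop_atTop.eventually
    ((isLittleO_log_rpow_atTop (r := ε / 3) (by positivity)).bound one_pos)
  have t2 : Tendsto (fun y : ℕ => (y : ℝ) ^ (ε / 3)) atTop atTop :=
    (tendsto_rpow_atTop (by positivity)).comp tendsto_natCast_atTop_atTop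
  filter_upwards [(tendsto_pow_atTop m.succ_ne_zero).eventually (eventually_atTop.2
    (Results.MP_1f047c_nt.ExceptionalC.result (m + 1) (m + m) (m + 1) (ε / 3 / (m + 1 : ℕ))
      (by positivity))), t1, t2.eventually_ge_atTop (8 * c + 3), eventually_ge_atTop 3]
    with y h0 h1 h2 hy X hX
  have hy1 : (3 : ℝ) ≤ y := by exact_mod_cast hy
  have hl : 1 ≤ Real.log y := by
    rw [Real.le_log_iff_exp_le (by positivity)]
    linarith [Real.exp_one_lt_d9]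
  have e1 : Real.log (y ^ m.succ : ℕ) = (m + 1) * Real.log y := by simp
  obtain ⟨𝒲, k1, k2, k3⟩ := h0 (Adm (fun b => {z : ℂ | ‖z‖ ≤ b}) m (m * Real.log y))
    fun z ⟨⟨K, _, _, φ, α, h1, h2, h3⟩, h4⟩ => ⟨le_trans h4 (by rw [e1]; linarith), K, _, ‹_›, φ, α,
      h1.trans m.le_succ, Complex.exp_eq_exp_ℂ ▸ h2, by
        rw [← Real.log_le_log_iff (by positivity) (by positivity), e1]
        exact h3.trans (by linarith)⟩
  have e2 : m * Real.log y ≤ (2 * (m + 1) * ⌈Real.log y⌉₊ : ℕ) * Real.log (2 : ℕ) := by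
    push_cast
    nlinarith [Real.log_two_gt_d9, Nat.le_ceil (Real.log y), mul_le_mul_of_nonneg_left
      (Nat.le_ceil (Real.log y)) m.cast_nonneg, (m.cast_nonneg : (0 : ℝ) ≤ m),
      mul_nonneg m.cast_nonneg (Nat.cast_nonneg (α := ℝ) ⌈Real.log y⌉₊)]
  choose! O hO hO' using fun z (hz : z ∈ Adm (fun b => {z : ℂ | ‖z‖ ≤ b}) m (m * Real.log y)) =>
    few_primes le_rfl (hz.1.mono le_rfl e2)
  have h3 : X ⊆ range 3 ∪ 𝒲.biUnion fun W => W.biUnion O := fun p hp => by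
    by_contra h3
    simp only [mem_union, mem_range, mem_biUnion, not_or, not_exists, not_and, not_lt] at h3
    obtain ⟨μ, B, _, ⟨a1, a2, P, a3, a4, a5, a6⟩, -, a7⟩ := hX p hp
    obtain ⟨f, b1, b2⟩ := exists_enum (insert μ B) (insert_nonempty _ _) (n := m + 1)
      ((card_insert_le _ _).trans (Nat.succ_le_succ a2))
    obtain ⟨W, b3, b4⟩ := k3 f fun k => (a7 _ (b1 k)).1
    obtain ⟨i, hi⟩ := b2 μ (mem_insert_self _ _)
    have b5 : (B : Set ℂ) ⊆ f '' {j | f j ≠ μ} := fun z hz => by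
      obtain ⟨j, rfl⟩ := b2 z (mem_insert_of_mem hz)
      exact ⟨j, fun e => a1 (e ▸ mem_sup_right (subset_span hz)), rfl⟩
    choose G b6 b7 using fun e => exists_mv (pow_le_pow_left' (V_mono b5) m (a5 e))
    have b8 : ∀ y : Fin (m + 1) → ℂ, (∀ j, f j ≠ μ → y j = f j) → MvPolynomial.aeval y
        (∑ e ∈ range (m + 1), G e * .X i ^ e) = P.eval (y i) := fun y hy => by
      rw [Polynomial.eval_eq_sum_range' (Nat.lt_succ_of_le a4), map_sum]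
      exact sum_congr rfl fun e _ => by simp [b7 e y hy]
    refine a3 (Polynomial.funext fun t => ?_)
    have b9 := b8 (fun j => if f j = μ then t else f j) fun j hj => if_neg hj
    rw [if_pos hi] at b9
    refine b9.symm.trans ((b4 ℚ (algebraMap ℚ ℂ) (by simp) _
      (MvPolynomial.totalDegree_finsetSum_le fun e he => (MvPolynomial.totalDegree_mul _ _).trans
        (add_le_add (b6 e) (by simpa [Nat.lt_succ_iff] using he)))
      ((b8 f fun _ _ => rfl).trans (hi.symm ▸ a6)) _ fun n hn => ?_).trans Polynomial.eval_zero.symm)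
    have e3 : ∀ t : ℂ, ∑ k, (n k : ℂ) * (if f k = μ then t else f k) =
        (∑ k with f k = μ, n k) • t + ∑ k with f k ≠ μ, n k • f k := fun t => by
      simp only [mul_ite, sum_ite, Rat.smul_def, Rat.cast_sum, sum_mul]
    have e4 : ∑ k, (n k : ℂ) * f k = (∑ k with f k = μ, n k) • μ + ∑ k with f k ≠ μ, n k • f k :=
      (sum_congr rfl fun k _ => by split_ifs with h <;> simp [h]).trans (e3 μ)
    rw [e3, e4, show ∑ k with f k = μ, n k = 0 from by_contra fun h => a1 ?_, zero_smul, zero_smul]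
    rw [← smul_mem_iff _ h, ← sub_eq_iff_eq_add.2 e4]
    have e5 : span ℚ (W : Set ℂ) ≤ Uq ⊤ p := span_mono fun z hz =>
      ⟨trivial, hO' z ((k2 W b3).2 hz) p h3.1 (h3.2 W b3 z hz)⟩
    exact sub_mem (mem_sup_left (e5 hn))
      (mem_sup_right (sum_mem fun k hk => smul_mem _ _ (subset_span
        ((mem_insert.1 (b1 k)).resolve_left (mem_filter.1 hk).2))))
  have h4 := (card_le_card h3).trans ((card_union_le _ _).trans (add_le_add (card_range 3).le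
    (card_biUnion_le_card_mul _ _ _ fun W hW => (card_biUnion_le_card_mul _ _ _
      fun z hz => hO z ((k2 W hW).2 hz)).trans (Nat.mul_le_mul_right _ (k2 W hW).1))))
  rw [Nat.cast_pow, ← Real.rpow_natCast, ← Real.rpow_mul (by positivity),
    mul_div_cancel₀ _ (by positivity)] at k1
  rw [Real.norm_of_nonneg (by linarith), Real.norm_of_nonneg (by positivity), one_mul] at h1
  rw [show (y : ℝ) ^ ε = ((y : ℝ) ^ (ε / 3)) ^ 3 by
    rw [← Real.rpow_mul_natCast (by positivity)]; simp]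
  generalize (y : ℝ) ^ (ε / 3) = u at h1 h2 k1
  have h5 : (⌈Real.log y⌉₊ : ℝ) ≤ 2 * u := by
    linarith [Nat.ceil_lt_add_one (show 0 ≤ Real.log y by linarith)]
  have c0 : (0 : ℝ) ≤ c := c.cast_nonneg
  have u0 : 1 ≤ u := by linarith
  calc (X.card : ℝ) ≤ 3 + 𝒲.card * (4 * c * ⌈Real.log y⌉₊) := by
        rw [← hc]
        exact_mod_cast h4.trans_eq (by ring)
    _ ≤ 3 * (u * u) + u * (4 * c * (2 * u)) := by
        gcongr
        nlinarith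
    _ = (8 * c + 3) * (u * u) := by ring
    _ ≤ u * (u * u) := by gcongr
    _ = _ := by ring

variable {𝕜 : Type} [NormedField 𝕜] [CharZero 𝕜] {Sm : ℝ → Set 𝕜} {Dm : AddSubgroup 𝕜}

theorem thin' [DecidableEq 𝕜] (hA : Fam Sm Dm) (U : ℕ → Submodule ℚ 𝕜)
    (count : ∀ (m : ℕ) (ε : ℝ), 0 < ε → ∀ᶠ y : ℕ in atTop, ∀ X : Finset ℕ,
      (∀ p ∈ X, Bad U Sm m y p) → (X.card : ℝ) ≤ (y : ℝ) ^ ε) :
    ∃ E : Set ℕ, (∀ ε : ℝ, 0 < ε → ∃ y₀ : ℕ, ∀ y : ℕ, y₀ ≤ y →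
        ((E ∩ Set.Iic y).ncard : ℝ) ≤ (y : ℝ) ^ ε) ∧
      ∀ m : ℕ, ∃ c : ℕ, ∀ p ∉ E, c ≤ p → ¬Bad U Sm m p p := by
  classical
  choose y0 hy0 using fun m : ℕ => eventually_atTop.1
    (count m (1 / (m + 1 : ℝ)) (by positivity))
  let Y : ℕ → ℕ := fun m => m + 1 + ∑ k ∈ range (m + 1), y0 k
  have Y1 : ∀ m, m + 1 ≤ Y m := fun m => Nat.le_add_right _ _
  have Y2 : ∀ m, y0 m ≤ Y m := fun m =>
    (single_le_sum (f := y0) (fun _ _ => Nat.zero_le _) (self_mem_range_succ m)).trans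
      (Nat.le_add_left _ _)
  refine ⟨{p | ∃ m, Y m ≤ p ∧ Bad U Sm m p p}, fun ε hε => ?_,
    fun m => ⟨Y m, fun p hp h1 h2 => hp ⟨m, h1, h2⟩⟩⟩
  obtain ⟨m0, hm0⟩ := exists_nat_one_div_lt hε
  refine ⟨Y m0, fun y h1 => ?_⟩
  have hm : ∀ m, Y m ≤ y → m ≤ Nat.findGreatest (fun m => Y m ≤ y) y := fun m h =>
    Nat.le_findGreatest (m.le_succ.trans ((Y1 m).trans h)) h
  have h2 : Y (Nat.findGreatest (fun m => Y m ≤ y) y) ≤ y :=
    Nat.findGreatest_spec (P := fun m => Y m ≤ y) (m0.le_succ.trans ((Y1 m0).trans h1)) h1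
  generalize Nat.findGreatest (fun m => Y m ≤ y) y = m at hm h2
  have h3 : {p | ∃ m, Y m ≤ p ∧ Bad U Sm m p p} ∩ Set.Iic y =
      ((Iic y).filter fun p => ∃ m, Y m ≤ p ∧ Bad U Sm m p p : Finset ℕ) := by
    ext
    simp [and_comm]
  rw [h3, Set.ncard_coe_finset]
  refine (hy0 m y ((Y2 m).trans h2) _ fun p hp => ?_).trans
    (Real.rpow_le_rpow_of_exponent_le (by exact_mod_cast (by have := Y1 m; omega : 1 ≤ y))
      (le_trans ?_ hm0.le))
  · have h4 := mem_Iic.1 (mem_filter.1 hp).1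
    obtain ⟨m', h5, μ, B, O, ⟨k1, k2, k3⟩, k4, k5⟩ := (mem_filter.1 hp).2
    have h8 := hm m' (h5.trans h4)
    have h9 : (1 : ℝ) ≤ p := by exact_mod_cast (by have := Y1 m'; omega : 1 ≤ p)
    have h10 := hA.sub h8 (show m' * Real.log p ≤ m * Real.log y from
      mul_le_mul (by exact_mod_cast h8) (Real.log_le_log (by linarith) (by exact_mod_cast h4))
        (Real.log_nonneg h9) (by positivity))
    exact ⟨μ, B, O, ⟨k1, k2.trans h8, k3.mono h8 le_rfl⟩, k4.trans h8,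
      fun z hz => ⟨h10 (k5 z hz).1, (k5 z hz).2⟩⟩
  · have : (m0 : ℝ) ≤ m := by exact_mod_cast hm m0 h1
    gcongr

theorem thin_rel' [DecidableEq 𝕜] (hA : Fam Sm Dm)
    (count : ∀ (m : ℕ) (ε : ℝ), 0 < ε → ∀ᶠ y : ℕ in atTop, ∀ X : Finset ℕ,
      (∀ p ∈ X, Bad (Uq Dm) Sm m y p) → (X.card : ℝ) ≤ (y : ℝ) ^ ε) :
    ∃ E : Set ℕ, (∀ ε : ℝ, 0 < ε → ∃ y₀ : ℕ, ∀ y : ℕ, y₀ ≤ y →
        ((E ∩ Set.Iic y).ncard : ℝ) ≤ (y : ℝ) ^ ε) ∧
      ∀ (n N d : ℕ) (A : ℝ), ∃ c : ℕ, ∀ (K : Type) [Field K] [NumberField K] (φ : K →+* 𝕜),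
        Module.finrank ℚ K ≤ d → ∀ (α : Fin N → K) (lam : Fin N → 𝕜),
        (∀ k, NormedSpace.exp (lam k) = φ (α k)) → ∀ (k : Fin N) (q : ℕ), q.Prime → q ∉ E → c ≤ q →
          (∀ j ≤ k, Height.logHeight₁ (α j) ≤ A * Real.log q ∧ lam j ∈ Sm (A * Real.log q)) →
          (∀ e : Fin N → ℤ, (∀ j, k < j → e j = 0) → QU q (∏ j, α j ^ e j) → e k = 0) →
          ¬Rel n (lam '' Set.Iio k) (lam k) := by
  obtain ⟨E, h1, h2⟩ := thin' hA (Uq Dm) count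
  refine ⟨E, h1, fun n N d A => ?_⟩
  obtain ⟨m, hm⟩ : ∃ m, m = n + N + d + ⌈A⌉₊ + N * (2 * ⌈A⌉₊) := ⟨_, rfl⟩
  obtain ⟨c, hc⟩ := h2 m
  refine ⟨c, fun K _ _ φ hd α lam he k q hq k1 k2 k3 k4 hR => ?_⟩
  have h3 : ∀ j ≤ k, lam j ∈ Adm Sm d (⌈A⌉₊ * Real.log q) := fun j hj => hA.sub le_rfl
    (mul_le_mul_of_nonneg_right (Nat.le_ceil A) (Real.log_natCast_nonneg q))
      ⟨⟨K, _, ‹_›, φ, α j, hd, he j, (k3 j hj).1⟩, (k3 j hj).2⟩
  choose! O hO hO' using fun j (hj : j ≤ k) => few_primes hq.two_le (h3 j hj).1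
  have h4 : (Iio k).card ≤ N ∧ (Iic k).card ≤ N :=
    ⟨(card_le_univ _).trans (by simp), (card_le_univ _).trans (by simp)⟩
  refine hc q k1 k2 ⟨lam k, (Iio k).image lam, (Iic k).biUnion O, ⟨fun h => ?_,
    card_image_le.trans (by omega), ?_⟩, (card_biUnion_le_card_mul _ _ _ fun j hj =>
      hO j (mem_Iic.1 hj)).trans ((Nat.mul_le_mul_right _ h4.2).trans (by omega)), fun z hz => ?_⟩
  · rw [coe_image, coe_Iio] at h
    obtain ⟨e, h5, h6, h7⟩ := new_level hA hq (fun j hj => hA.dom _ _ (k3 j hj).2) h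
    refine h7 (k4 e h5 ((QU.map_iff φ).1 ?_))
    simpa only [map_prod, map_zpow₀, he] using h6
  · rw [coe_image, coe_Iio]
    exact hR.mono (by omega) le_rfl
  · rw [← image_insert, Iio_insert] at hz
    obtain ⟨j, hj, rfl⟩ := mem_image.1 hz
    exact ⟨hA.sub (by omega) (mul_le_mul_of_nonneg_right (by exact_mod_cast (by omega))
      (Real.log_natCast_nonneg q)) (h3 j (mem_Iic.1 hj)), fun q' h5 h6 => subset_span
        ⟨hA.dom _ _ (k3 j (mem_Iic.1 hj)).2,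
          hO' j (mem_Iic.1 hj) q' h5 fun h => h6 (mem_biUnion.2 ⟨j, hj, h⟩)⟩⟩

end Pool.Agent.Lib.MP_1f047c_nt.Ex

namespace Pool.Agent.Results.MP_1f047c_nt.ThinComplex

open Pool.Agent.Lib.MP_1f047c_nt

theorem result : ∃ E : Set ℕ,
    (∀ ε : ℝ, 0 < ε → ∃ y₀ : ℕ, ∀ y : ℕ, y₀ ≤ y → ((E ∩ Set.Iic y).ncard : ℝ) ≤ (y : ℝ) ^ ε) ∧
    ∀ (n N d : ℕ) (A : ℝ), ∃ c : ℕ,
      ∀ (K : Type) [Field K] [NumberField K] (φ : K →+* ℂ), Module.finrank ℚ K ≤ d →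
      ∀ (α : Fin N → K) (lam : Fin N → ℂ), (∀ k, Complex.exp (lam k) = φ (α k)) →
      ∀ r : ℕ, (∀ k : Fin N, r ≤ (k : ℕ) → ∃ q : ℕ, q.Prime ∧ q ∉ E ∧ c ≤ q ∧
        (∀ j ≤ k, Height.logHeight₁ (α j) ≤ A * Real.log q ∧ ‖lam j‖ ≤ A * Real.log q) ∧
        ∀ (e : Fin N → ℤ) (m : ℕ), (∀ j, k < j → e j = 0) → ¬q ∣ m →
          IsIntegral ℤ ((m : K) * ∏ j, α j ^ e j) → IsIntegral ℤ ((m : K) * (∏ j, α j ^ e j)⁻¹) →
          e k = 0) →
      ∀ B : Fin N → Matrix (Fin n) (Fin n) ℚ,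
        (r ≤ 1 ∨ ∃ x : Fin N → ℚ, (∀ k : Fin N, (k : ℕ) < r → x k = 0) ∧
          n ≤ (∑ k, x k • B k).rank + 1) →
      ∀ M : Matrix (Fin n) (Fin n) ℂ, (∀ i j, M i j = ∑ k, (B k i j : ℂ) * lam k) → M.det = 0 →
      ∃ w v : Fin n → ℚ, w ≠ 0 ∧ v ≠ 0 ∧ ∑ i, ∑ j, (w i : ℂ) * M i j * (v j : ℂ) = 0 := by
  classical
  obtain ⟨E, h1, h2⟩ := Ex.thin_rel' Th.fam_complex Ex.count_primes
  refine ⟨E, h1, fun n N d A => (h2 n N d A).imp fun c hc K _ _ φ hd α lam he r h =>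
    Th.matrix_of le_rfl lam fun k hk => ?_⟩
  obtain ⟨q, k1, k2, k3, k4, k5⟩ := h k hk
  exact hc K φ hd α lam (by rwa [← Complex.exp_eq_exp_ℂ]) k q k1 k2 k3 k4
    fun e he ⟨m, l1, l2, l3⟩ => k5 e m he l1 l2 l3

end Pool.Agent.Results.MP_1f047c_nt.ThinComplex
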