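import Pool.Agent.Lib.MP_1f047c_nt.ThMain

namespace Pool.Agent.Results.MP_1f047c_nt.ThinPadic

open Pool.Agent.Lib.MP_1f047c_nt

theorem result (p : ℕ) [Fact p.Prime] : ∃ E : Set ℕ,
    (∀ ε : ℝ, 0 < ε → ∃ y₀ : ℕ, ∀ y : ℕ, y₀ ≤ y → ((E ∩ Set.Iic y).ncard : ℝ) ≤ (y : ℝ) ^ ε) ∧
    ∀ (n N d : ℕ) (A : ℝ), ∃ c : ℕ,
      ∀ (K : Type) [Field K] [NumberField K] (φ : K →+* ℂ_[p]), Module.finrank ℚ K ≤ d →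
      ∀ (α : Fin N → K) (lam : Fin N → ℂ_[p]), (∀ k, NormedSpace.exp (lam k) = φ (α k)) →
      (∀ k, ‖lam k‖ ≤ 1 / 16) →
      ∀ r : ℕ, (∀ k : Fin N, r ≤ (k : ℕ) → ∃ q : ℕ, q.Prime ∧ q ∉ E ∧ c ≤ q ∧
        (∀ j ≤ k, Height.logHeight₁ (α j) ≤ A * Real.log q) ∧
        ∀ (e : Fin N → ℤ) (m : ℕ), (∀ j, k < j → e j = 0) → ¬q ∣ m →
          IsIntegral ℤ ((m : K) * ∏ j, α j ^ e j) → IsIntegral ℤ ((m : K) * (∏ j, α j ^ e j)⁻¹) →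
          e k = 0) →
      ∀ B : Fin N → Matrix (Fin n) (Fin n) ℚ,
        (r ≤ 1 ∨ ∃ x : Fin N → ℚ, (∀ k : Fin N, (k : ℕ) < r → x k = 0) ∧
          n ≤ (∑ k, x k • B k).rank + 1) →
      ∀ M : Matrix (Fin n) (Fin n) ℂ_[p], (∀ i j, M i j = ∑ k, (B k i j : ℂ_[p]) * lam k) →
      M.det = 0 →
      ∃ w v : Fin n → ℚ, w ≠ 0 ∧ v ≠ 0 ∧ ∑ i, ∑ j, (w i : ℂ_[p]) * M i j * (v j : ℂ_[p]) = 0 := by
  obtain ⟨E, h1, h2⟩ := Th.thin_rel (TA.nice_padic p) Th.fam_padic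
  refine ⟨E, h1, fun n N d A => (h2 n N d A).imp fun c hc K _ _ φ hd α lam he hl r h =>
    Th.matrix_of le_rfl lam fun k hk => ?_⟩
  obtain ⟨q, k1, k2, k3, k4, k5⟩ := h k hk
  exact hc K φ hd α lam he k q k1 k2 k3 (fun j hj => ⟨k4 j hj, hl j⟩)
    fun e he ⟨m, l1, l2, l3⟩ => k5 e m he l1 l2 l3

end Pool.Agent.Results.MP_1f047c_nt.ThinPadic
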